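import Pool.Agent.Y335.FL.Order

/-!
# Balls in graphs of girth twelve, seen from a binary tree

Let `x`, `y` be adjacent vertices of a graph with girth at least twelve and degrees at least three.
From the edge `x y` we grow a cubic tree with 126 vertices. A ball of radius `r ≤ 5` contains at most
`1, 4, 10, 24, 50, 104` of its vertices for `r = 0, …, 5`.
-/

set_option autoImplicit false
set_option linter.unusedSectionVars false

namespace Pool.Agent.Q164.BC

open Pool.Agent.Y335.FL

/-- the bound for the number of vertices at distance at most `r` in a binary tree of depth `k`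
whose root is at distance `j` (at least six for `j = 6`); `b`: the parent of the root is nearer -/
def F (r : ℕ) : ℕ → Bool → ℕ → ℕ
  | 0, _, j => if j ≤ r then 1 else 0
  | k + 1, b, j =>
    if 6 ≤ j then 2 * max (F r k false 6) (F r k false 5)
    else (if j ≤ r then 1 else 0) +
      (if b = true ∨ j = 0 then 2 * F r k true (j + 1)
       else max (2 * F r k true (j + 1)) (F r k false (j - 1) + F r k true (j + 1)))

/-- the weights of the balls -/
def wt : ℕ → ℕ
  | 0 => 1
  | 1 => 4
  | 2 => 10
  | 3 => 24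
  | 4 => 50
  | _ => 104

theorem F_six (r k : ℕ) (b : Bool) : F r k b 6 = F r k false 6 := by
  cases k with
  | zero => rfl
  | succ k => simp [F]

theorem tot_le : ∀ r ≤ 5, (∀ j ≤ 5, F r 5 false j + F r 5 true (j + 1) ≤ wt r) ∧
    2 * F r 5 false 6 ≤ wt r := by
  decide +kernel

section

variable {V : Type} [Fintype V] [DecidableEq V] {G : SimpleGraph V}

/-- `t` is the end of a path of length `j` which starts at `v` -/
def H (G : SimpleGraph V) (v : V) (j : ℕ) (t : V) : Prop :=
  ∃ p : G.Walk v t, p.IsPath ∧ p.length = j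

variable {v : V}

theorem H_uniq (h12 : ∀ (w : V) (c : G.Walk w w), c.IsCycle → 12 ≤ c.length) {i j : ℕ} {t : V}
    (h1 : H G v i t) (h2 : H G v j t) (hij : i + j ≤ 11) : i = j := by
  obtain ⟨p, hp, hpl⟩ := h1
  obtain ⟨q, hq, hql⟩ := h2
  have := Ord.uniq h12 hp hq (by omega)
  rw [← hpl, ← hql, this]

theorem H_up (h12 : ∀ (w : V) (c : G.Walk w w), c.IsCycle → 12 ≤ c.length) {j : ℕ} {t u : V}
    (hj : j ≤ 5) (h : H G v j t) (hadj : G.Adj t u) :
    H G v (j + 1) u ∨ ∃ i, j = i + 1 ∧ H G v i u := by
  obtain ⟨p, hp, hpl⟩ := h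
  by_cases hu : u ∈ p.support
  · right
    have h2 := Ord.uniq h12 (hp.dropUntil hu) (Ord.edge_path hadj.symm) (by
      have := p.length_dropUntil_le_length hu
      simp only [SimpleGraph.Walk.length_cons, SimpleGraph.Walk.length_nil]
      omega)
    have h3 : (p.takeUntil u hu).length + (p.dropUntil u hu).length = p.length := by
      rw [← SimpleGraph.Walk.length_append, SimpleGraph.Walk.take_spec]
    have h5 := congrArg SimpleGraph.Walk.length h2
    simp only [SimpleGraph.Walk.length_cons, SimpleGraph.Walk.length_nil] at h5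
    exact ⟨(p.takeUntil u hu).length, by omega, p.takeUntil u hu, hp.takeUntil hu, rfl⟩
  · left
    exact ⟨p.concat hadj, hp.concat hu hadj, by rw [SimpleGraph.Walk.length_concat, hpl]⟩

theorem low_uniq (h12 : ∀ (w : V) (c : G.Walk w w), c.IsCycle → 12 ≤ c.length) {i : ℕ}
    {t u u' : V} (hi : i ≤ 4) (ht : H G v (i + 1) t) (hu : G.Adj t u) (hu' : G.Adj t u')
    (h : H G v i u) (h' : H G v i u') : u = u' := by
  have key : ∀ {u : V} (q : G.Walk v u), q.IsPath → q.length = i → t ∉ q.support := by
    intro u q hq hql htq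
    have h1 : H G v (q.takeUntil t htq).length t := ⟨_, hq.takeUntil htq, rfl⟩
    have h2 := q.length_takeUntil_le_length htq
    have h3 := H_uniq h12 h1 ht (by omega)
    omega
  obtain ⟨q, hq, hql⟩ := h
  obtain ⟨q', hq', hql'⟩ := h'
  have e := Ord.uniq h12 (hq.concat (key q hq hql) hu.symm)
    (hq'.concat (key q' hq' hql') hu'.symm) (by
      rw [SimpleGraph.Walk.length_concat, SimpleGraph.Walk.length_concat]
      omega)
  have e2 := congrArg SimpleGraph.Walk.penultimate e
  rwa [SimpleGraph.Walk.penultimate_concat, SimpleGraph.Walk.penultimate_concat] at e2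

/-- the vertices of the binary tree of depth `k` with root `t`, the parent of the root being `p` -/
def nodes (c1 c2 : V → V → V) : ℕ → V → V → List V
  | 0, _, t => [t]
  | k + 1, p, t => t :: (nodes c1 c2 k t (c1 p t) ++ nodes c1 c2 k t (c2 p t))

theorem nodes_length (c1 c2 : V → V → V) (k : ℕ) : ∀ p t : V,
    (nodes c1 c2 k p t).length + 1 = 2 ^ (k + 1) := by
  induction k with
  | zero => intro p t; rfl
  | succ k ih =>
    intro p t
    have h1 := ih t (c1 p t)
    have h2 := ih t (c2 p t)
    rw [nodes, List.length_cons, List.length_append, pow_succ]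
    omega

/-- the choice of the children -/
def Ch (G : SimpleGraph V) (c1 c2 : V → V → V) : Prop := ∀ p t, G.Adj p t →
  G.Adj t (c1 p t) ∧ G.Adj t (c2 p t) ∧ c1 p t ≠ c2 p t ∧ c1 p t ≠ p ∧ c2 p t ≠ p

theorem exists_Ch
    (h3 : ∀ x y, G.Adj x y → ∃ a b c, G.Adj x a ∧ G.Adj x b ∧ G.Adj x c ∧ a ≠ b ∧ a ≠ c ∧ b ≠ c) :
    ∃ c1 c2 : V → V → V, Ch G c1 c2 := by
  classical
  have h : ∀ p t, ∃ a b, G.Adj p t → G.Adj t a ∧ G.Adj t b ∧ a ≠ b ∧ a ≠ p ∧ b ≠ p := by
    intro p t
    by_cases hpt : G.Adj p t
    · obtain ⟨a, b, c, ha, hb, hc, hab, hac, hbc⟩ := h3 t p hpt.symm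
      by_cases h1 : a = p
      · exact ⟨b, c, fun _ => ⟨hb, hc, hbc, fun h => hab (h1.trans h.symm),
          fun h => hac (h1.trans h.symm)⟩⟩
      · by_cases h2 : b = p
        · exact ⟨a, c, fun _ => ⟨ha, hc, hac, h1, fun h => hbc (h2.trans h.symm)⟩⟩
        · exact ⟨a, b, fun _ => ⟨ha, hb, hab, h1, h2⟩⟩
    · exact ⟨t, t, fun h => absurd h hpt⟩
  choose a b hab using h
  exact ⟨a, b, hab⟩

theorem nodes_adj {c1 c2 : V → V → V} (hc : Ch G c1 c2) (k : ℕ) : ∀ p t : V, G.Adj p t →
    ∀ x ∈ nodes c1 c2 k p t, ∃ y, G.Adj x y := by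
  induction k with
  | zero =>
    intro p t h x hx
    rw [nodes, List.mem_singleton] at hx
    rw [hx]
    exact ⟨p, h.symm⟩
  | succ k ih =>
    intro p t h x hx
    obtain ⟨h1, h2, _⟩ := hc p t h
    rw [nodes, List.mem_cons, List.mem_append] at hx
    rcases hx with hx | hx | hx
    · rw [hx]
      exact ⟨p, h.symm⟩
    · exact ih _ _ h1 x hx
    · exact ih _ _ h2 x hx

open Classical in
/-- the number of the members of the list at distance at most `r` from `v` -/
noncomputable def cnt (G : SimpleGraph V) (v : V) (r : ℕ) (l : List V) : ℕ :=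
  l.countP (fun t => decide (∃ j ≤ r, H G v j t))

theorem cnt_cons_le (r : ℕ) (hr : r ≤ 5)
    (h12 : ∀ (w : V) (c : G.Walk w w), c.IsCycle → 12 ≤ c.length) {j : ℕ} {t : V}
    (hj : j ≤ 5) (h : H G v j t) (l : List V) :
    cnt G v r (t :: l) ≤ (if j ≤ r then 1 else 0) + cnt G v r l := by
  classical
  unfold cnt
  rw [List.countP_cons]
  by_cases h1 : ∃ i ≤ r, H G v i t
  · obtain ⟨i, hi, hit⟩ := h1
    have := H_uniq h12 hit h (by omega)
    rw [if_pos (by omega : j ≤ r)]
    split_ifs <;> omega
  · rw [if_neg (by simpa using h1)]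
    omega

theorem cnt_cons_far (r : ℕ) (hr : r ≤ 5) {t : V} (h : ∀ j ≤ 5, ¬ H G v j t) (l : List V) :
    cnt G v r (t :: l) = cnt G v r l := by
  classical
  unfold cnt
  rw [List.countP_cons, if_neg]
  · omega
  · simp only [decide_eq_true_eq, not_exists, not_and]
    exact fun j hj => h j (by omega)

theorem cnt_append (r : ℕ) (l l' : List V) :
    cnt G v r (l ++ l') = cnt G v r l + cnt G v r l' := by
  unfold cnt
  rw [List.countP_append]

/-- **The count in a binary tree.** -/
theorem count (h12 : ∀ (w : V) (c : G.Walk w w), c.IsCycle → 12 ≤ c.length) {c1 c2 : V → V → V}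
    (hc : Ch G c1 c2) (r : ℕ) (hr : r ≤ 5) (k : ℕ) : ∀ p t : V, G.Adj p t →
    (∀ j ≤ 5, H G v j t → cnt G v r (nodes c1 c2 k p t) ≤ F r k false j) ∧
    (∀ i ≤ 4, H G v (i + 1) t → H G v i p → cnt G v r (nodes c1 c2 k p t) ≤ F r k true (i + 1)) ∧
    ((∀ j ≤ 5, ¬ H G v j t) → cnt G v r (nodes c1 c2 k p t) ≤ F r k false 6) := by
  induction k with
  | zero =>
    intro p t _
    refine ⟨fun j hj h => ?_, fun i hi h _ => ?_, fun h => ?_⟩
    · have h1 := cnt_cons_le r hr h12 hj h []
      simpa [nodes, F, cnt] using h1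
    · have h1 := cnt_cons_le r hr h12 (show i + 1 ≤ 5 by omega) h []
      simpa [nodes, F, cnt] using h1
    · have h1 := cnt_cons_far r hr h ([] : List V)
      rw [nodes, h1]
      simp [cnt]
  | succ k ih =>
    intro p t hpt
    obtain ⟨ha, hb, hab, hap, hbp⟩ := hc p t hpt
    have iha := ih t (c1 p t) ha
    have ihb := ih t (c2 p t) hb
    -- a child which is farther than its parent
    have up : ∀ c : V, G.Adj t c → ∀ j ≤ 5, H G v j t → H G v (j + 1) c →
        cnt G v r (nodes c1 c2 k t c) ≤ F r k true (j + 1) := by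
      intro c htc j hj h1 h2
      have ihc := ih t c htc
      rcases Nat.lt_or_ge j 5 with h5 | h5
      · exact ihc.2.1 j (by omega) h2 h1
      · have h6 : j = 5 := by omega
        subst h6
        rw [F_six]
        refine ihc.2.2 fun i hi h3 => ?_
        have := H_uniq h12 h3 h2 (by omega)
        omega
    refine ⟨fun j hj h => ?_, fun i hi h hp => ?_, fun h => ?_⟩
    · have h0 := cnt_cons_le r hr h12 hj h
        (nodes c1 c2 k t (c1 p t) ++ nodes c1 c2 k t (c2 p t))
      rw [nodes]
      refine h0.trans ?_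
      rw [cnt_append, F, if_neg (by omega : ¬ 6 ≤ j)]
      refine Nat.add_le_add_left ?_ _
      rcases H_up h12 hj h ha with h1 | ⟨i, hi, h1⟩
      · have k1 := up _ ha j hj h h1
        rcases H_up h12 hj h hb with h2 | ⟨i, hi, h2⟩
        · have k2 := up _ hb j hj h h2
          by_cases hj0 : false = true ∨ j = 0
          · rw [if_pos hj0]
            omega
          · rw [if_neg hj0]
            refine le_trans ?_ (le_max_left _ _)
            omega
        · have k2 := ihb.1 i (by omega) h2
          rw [if_neg (by simp; omega)]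
          refine le_trans ?_ (le_max_right _ _)
          rw [show j - 1 = i by omega]
          omega
      · have k1 := iha.1 i (by omega) h1
        rcases H_up h12 hj h hb with h2 | ⟨i', hi', h2⟩
        · have k2 := up _ hb j hj h h2
          rw [if_neg (by simp; omega)]
          refine le_trans ?_ (le_max_right _ _)
          rw [show j - 1 = i by omega]
          omega
        · exfalso
          have h3 : i' = i := by omega
          subst h3
          subst hi'
          exact hab (low_uniq h12 (by omega) h ha hb h1 h2)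
    · have h0 := cnt_cons_le r hr h12 (show i + 1 ≤ 5 by omega) h
        (nodes c1 c2 k t (c1 p t) ++ nodes c1 c2 k t (c2 p t))
      rw [nodes]
      refine h0.trans ?_
      rw [cnt_append, F, if_neg (by omega : ¬ 6 ≤ i + 1)]
      refine Nat.add_le_add_left ?_ _
      rw [if_pos (Or.inl rfl)]
      have child : ∀ c : V, G.Adj t c → c ≠ p → cnt G v r (nodes c1 c2 k t c) ≤
          F r k true (i + 1 + 1) := by
        intro c htc hcp
        rcases H_up h12 (show i + 1 ≤ 5 by omega) h htc with h1 | ⟨i', hi', h1⟩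
        · exact up _ htc (i + 1) (by omega) h h1
        · exfalso
          have h3 : i' = i := by omega
          subst h3
          exact hcp (low_uniq h12 hi h htc hpt.symm h1 hp)
      have k1 := child _ ha hap
      have k2 := child _ hb hbp
      omega
    · rw [nodes, cnt_cons_far r hr h, cnt_append, F, if_pos le_rfl]
      have child : ∀ c : V, G.Adj t c → cnt G v r (nodes c1 c2 k t c) ≤
          max (F r k false 6) (F r k false 5) := by
        intro c htc
        have ihc := ih t c htc
        by_cases hfar : ∀ j ≤ 5, ¬ H G v j c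
        · exact (ihc.2.2 hfar).trans (le_max_left _ _)
        · push Not at hfar
          obtain ⟨j, hj, hjc⟩ := hfar
          have h5 : j = 5 := by
            rcases H_up h12 hj hjc htc.symm with h1 | ⟨i, hi, h1⟩
            · by_contra hne
              exact h (j + 1) (by omega) h1
            · exact absurd h1 (h i (by omega))
          subst h5
          exact (ihc.1 5 le_rfl hjc).trans (le_max_right _ _)
      have k1 := child _ ha
      have k2 := child _ hb
      omega

/-- **The count in the tree with 126 vertices.** -/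
theorem count_tree (h12 : ∀ (w : V) (c : G.Walk w w), c.IsCycle → 12 ≤ c.length)
    {c1 c2 : V → V → V} (hc : Ch G c1 c2) (r : ℕ) (hr : r ≤ 5) {x y : V} (hxy : G.Adj x y) :
    cnt G v r (nodes c1 c2 5 y x ++ nodes c1 c2 5 x y) ≤ wt r := by
  rw [cnt_append]
  obtain ⟨t1, t2⟩ := tot_le r hr
  have kx := count (v := v) h12 hc r hr 5 y x hxy.symm
  have ky := count (v := v) h12 hc r hr 5 x y hxy
  -- the general step
  have step : ∀ x y : V, G.Adj x y → ∀ j ≤ 5, H G v j x → H G v (j + 1) y →
      cnt G v r (nodes c1 c2 5 y x) + cnt G v r (nodes c1 c2 5 x y) ≤ wt r := by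
    intro x y hxy j hj h1 h2
    have kx := count (v := v) h12 hc r hr 5 y x hxy.symm
    have ky := count (v := v) h12 hc r hr 5 x y hxy
    have e1 := kx.1 j hj h1
    have e2 : cnt G v r (nodes c1 c2 5 x y) ≤ F r 5 true (j + 1) := by
      rcases Nat.lt_or_ge j 5 with h5 | h5
      · exact ky.2.1 j (by omega) h2 h1
      · have h6 : j = 5 := by omega
        subst h6
        rw [F_six]
        refine ky.2.2 fun i hi h3 => ?_
        have := H_uniq h12 h3 h2 (by omega)
        omega
    have := t1 j hj
    omega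
  by_cases hx : ∃ j ≤ 5, H G v j x
  · obtain ⟨j, hj, hjx⟩ := hx
    rcases H_up h12 hj hjx hxy with h1 | ⟨i, hi, h1⟩
    · exact step x y hxy j hj hjx h1
    · rw [hi] at hjx
      have := step y x hxy.symm i (by omega) h1 hjx
      omega
  · push Not at hx
    by_cases hy : ∃ j ≤ 5, H G v j y
    · obtain ⟨j, hj, hjy⟩ := hy
      rcases H_up h12 hj hjy hxy.symm with h1 | ⟨i, hi, h1⟩
      · have := step y x hxy.symm j hj hjy h1
        omega
      · exact absurd h1 (hx i (by omega))
    · push Not at hy
      have e1 := kx.2.2 hx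
      have e2 := ky.2.2 hy
      omega

/-- **Balls which cover all vertices with neighbours have a large total weight.** -/
theorem cover (h12 : ∀ (w : V) (c : G.Walk w w), c.IsCycle → 12 ≤ c.length)
    (h3 : ∀ x y, G.Adj x y → ∃ a b c, G.Adj x a ∧ G.Adj x b ∧ G.Adj x c ∧ a ≠ b ∧ a ≠ c ∧ b ≠ c)
    {x y : V} (hxy : G.Adj x y) {m : ℕ} (d : Fin m → V) (r : Fin m → ℕ) (hr : ∀ i, r i ≤ 5)
    (hcov : ∀ t y, G.Adj t y → ∃ i, ∃ j ≤ r i, H G (d i) j t) : 126 ≤ ∑ i, wt (r i) := by
  classical
  obtain ⟨c1, c2, hc⟩ := exists_Ch h3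
  set l : List V := nodes c1 c2 5 y x ++ nodes c1 c2 5 x y with hl
  have hlen : l.length = 126 := by
    rw [hl, List.length_append]
    have h1 := nodes_length c1 c2 5 y x
    have h2 := nodes_length c1 c2 5 x y
    omega
  have hmem : ∀ t ∈ l, ∃ i, ∃ j ≤ r i, H G (d i) j t := by
    intro t ht
    rw [hl, List.mem_append] at ht
    rcases ht with ht | ht
    · obtain ⟨z, hz⟩ := nodes_adj hc 5 _ _ hxy.symm t ht
      exact hcov t z hz
    · obtain ⟨z, hz⟩ := nodes_adj hc 5 _ _ hxy t ht
      exact hcov t z hz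
  have hsum : ∀ l' : List V, (∀ t ∈ l', ∃ i, ∃ j ≤ r i, H G (d i) j t) →
      l'.length ≤ ∑ i, cnt G (d i) (r i) l' := by
    intro l'
    induction l' with
    | nil => intro _; simp
    | cons t l' ih =>
      intro h
      have h1 := ih (fun t ht => h t (List.mem_cons_of_mem _ ht))
      obtain ⟨i0, hi0⟩ := h t List.mem_cons_self
      have h2 : ∀ i, cnt G (d i) (r i) l' + (if i = i0 then 1 else 0) ≤
          cnt G (d i) (r i) (t :: l') := by
        intro i
        unfold cnt
        rw [List.countP_cons]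
        by_cases hi : i = i0
        · subst hi
          rw [if_pos rfl, if_pos (by simpa using hi0)]
        · rw [if_neg hi]
          split_ifs <;> omega
      have h3 : ∑ i, (cnt G (d i) (r i) l' + (if i = i0 then 1 else 0)) ≤
          ∑ i, cnt G (d i) (r i) (t :: l') := Finset.sum_le_sum fun i _ => h2 i
      rw [Finset.sum_add_distrib, Finset.sum_ite_eq' Finset.univ i0 (fun _ => 1),
        if_pos (Finset.mem_univ _)] at h3
      rw [List.length_cons]
      omega
  have h1 := hsum l hmem
  rw [hlen] at h1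
  refine h1.trans (Finset.sum_le_sum fun i _ => ?_)
  rw [hl]
  exact count_tree h12 hc (r i) (hr i) hxy

end

end Pool.Agent.Q164.BC
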