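import Pool.Agent.Y358.IN.Ind
import Pool.Agent.Q164.BC.Tree

/-!
# Nowhere-zero 5-flows in graphs covered by few small balls
-/

set_option autoImplicit false
set_option linter.unusedSectionVars false

namespace Pool.Agent.Q164.BC

open Finset Pool.Agent.TH676.Z Pool.Agent.Y335.FL Pool.Agent.Y358.IN

section

variable {V E : Type} [Fintype V] [DecidableEq V] [Fintype E] [DecidableEq E]

/-- `y` is at distance at most `n` from `x` -/
def Near (src dst : E → V) : ℕ → V → V → Prop
  | 0, x, y => x = y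
  | n + 1, x, y => Near src dst n x y ∨ ∃ z, Near src dst n x z ∧ Adj src dst z y

/-- the class -/
def ClB (m : ℕ) (r : Fin m → ℕ) (src dst : E → V) : Prop :=
  ∃ d : Fin m → V, ∀ x, 3 ≤ dg src dst x → ∃ i, Near src dst (r i) (d i) x

theorem near_ctr {src dst : E → V} (u v : V) (n : ℕ) : ∀ x y, Near src dst n x y →
    Near (ctr u v ∘ src) (ctr u v ∘ dst) n (ctr u v x) (ctr u v y) := by
  induction n with
  | zero =>
    intro x y h
    exact congrArg (ctr u v) h
  | succ n ih =>
    intro x y h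
    rcases h with h | ⟨z, hz, hzy⟩
    · exact Or.inl (ih x y h)
    · by_cases he : ctr u v z = ctr u v y
      · left
        rw [← he]
        exact ih x z hz
      · exact Or.inr ⟨ctr u v z, ih x z hz, adj_ctr hzy he⟩

theorem ccB (m : ℕ) (r : Fin m → ℕ) : CC (V := V) (E := E) (ClB m r) := by
  intro src dst e h hne
  obtain ⟨d, hd⟩ := h
  set u := src e with hu
  set v := dst e with hv
  refine ⟨fun i => ctr u v (d i), ?_⟩
  intro x hx
  have hxv : x ≠ v := by
    rintro rfl
    rw [Ord.dg_ctr_v src dst hne] at hx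
    omega
  by_cases hxu : x = u
  · have h2 : dg (ctr u v ∘ src) (ctr u v ∘ dst) u + 2 ≤ dg src dst u + dg src dst v :=
      Ord.dg_ctr_u src dst e hne
    rw [hxu] at hx
    obtain ⟨w, hw, hwd⟩ : ∃ w, (w = u ∨ w = v) ∧ 3 ≤ dg src dst w := by
      by_cases h4 : 3 ≤ dg src dst u
      · exact ⟨u, Or.inl rfl, h4⟩
      · exact ⟨v, Or.inr rfl, by omega⟩
    have hcw : ctr u v w = u := by
      rcases hw with rfl | rfl
      · exact ctr_u _ _ hne
      · exact ctr_v _ _
    obtain ⟨i, hi⟩ := hd w hwd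
    refine ⟨i, ?_⟩
    have := near_ctr u v _ _ _ hi
    rw [hcw] at this
    rw [hxu]
    exact this
  · obtain ⟨i, hi⟩ := hd x (hx.trans (Ord.dg_ctr_other src dst hxu))
    refine ⟨i, ?_⟩
    have := near_ctr u v _ _ _ hi
    rwa [ctr_of_ne hxv] at this

theorem near_path {src dst : E → V} {G : SimpleGraph V}
    (hG : ∀ a b, G.Adj a b ↔ Adj src dst a b) (n : ℕ) : ∀ x y, Near src dst n x y →
    ∃ p : G.Walk x y, p.length ≤ n := by
  induction n with
  | zero =>
    intro x y h
    have h' : x = y := h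
    subst h'
    exact ⟨SimpleGraph.Walk.nil, le_rfl⟩
  | succ n ih =>
    intro x y h
    rcases h with h | ⟨z, hz, hzy⟩
    · obtain ⟨p, hp⟩ := ih x y h
      exact ⟨p, by omega⟩
    · obtain ⟨p, hp⟩ := ih x z hz
      exact ⟨p.concat ((hG z y).2 hzy), by rw [SimpleGraph.Walk.length_concat]; omega⟩

/-- **Main step.** -/
theorem flow_of_ClB (hc : St_contract) (m : ℕ) (r : Fin m → ℕ) (hr : ∀ i, r i ≤ 5)
    (hw : ∑ i, wt (r i) ≤ 125) (src dst : E → V) (hcl : ClB m r src dst)
    (hbr : Br src dst ∅ ∅) : FlowOn src dst ∅ ∅ := by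
  classical
  by_contra hn
  obtain ⟨s, d, ⟨D, hD⟩, hM⟩ := exists_minC (ccB m r) src dst hcl hbr hn
  have h3 := threeC hc hM
  have hgi := girthC hc hM
  by_cases hl : ∀ e, s e = d e
  · exact hM.nf (flow_of_loops hl)
  push Not at hl
  obtain ⟨e, he⟩ := hl
  let G : SimpleGraph V :=
    { Adj := Adj s d
      symm := ⟨fun a b h => GiAux.adj_symm h⟩
      loopless := ⟨fun a h => h.1 rfl⟩ }
  have hG : ∀ a b, G.Adj a b ↔ Adj s d a b := fun a b => Iff.rfl
  have h12 : ∀ (w : V) (c : G.Walk w w), c.IsCycle → 12 ≤ c.length :=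
    fun w c hc => Ord.cycle_len hgi G hG c hc
  have hxy : G.Adj (s e) (d e) := ⟨he, e, Or.inl ⟨rfl, rfl⟩⟩
  have h126 := cover h12 (fun x y h => h3 x y h) hxy D r hr (fun t y hty => by
    obtain ⟨i, hi⟩ := hD t (Ord.three_dg h3 ((hG t y).1 hty))
    obtain ⟨p, hp⟩ := near_path hG _ _ _ hi
    exact ⟨i, p.bypass.length, p.length_bypass_le.trans hp, p.bypass, p.bypass_isPath, rfl⟩)
  omega

end

end Pool.Agent.Q164.BC
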